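import Pool.Agent.Q199.JT.Defs
import Pool.Agent.Q199.JT.Tree

/-!
# Nonreflexive subspaces of the dual of the James tree space contain `J*`

`treeSys.seg` is the set of the segments `{b | a ≤ b ≤ c}` of the tree of finite `0`-`1` sequences
ordered by extension, `natSys.seg` the set of the intervals of `ℕ`. For a system `S` of finite sets
`S.nrm x` is the supremum of `(∑_{s ∈ P} (∑_{a ∈ s} x a) ^ 2) ^ (1 / 2)` over the finite families `P`
of pairwise disjoint members of `S.seg`, `Bs S` is the completion of the space of the finitely
supported real functions in this norm and `Ds S` is its dual. Thus `JT = Bs treeSys`,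
`JT* = Ds treeSys`, `J = Bs natSys` and `J* = Ds natSys`.

Idea of the proof. Let `Y ⊆ JT*` be nonreflexive and `θ ∈ Y**` not in `Y`. Let `f ∈ JT*` be the
restriction of `θ` to `JT` and, for a branch `γ`, let `Λ_γ ∈ JT**` be the weak* limit of the unit
vectors along `γ`. As `JT** = JT ⊕ ℓ₂(Λ_γ)`, there is a branch `γ₀` with `θ(Λ_γ₀) ≠ Λ_γ₀(f)`. By
Goldstine's theorem one finds `y_n ∈ Y` and levels `m_n` such that
`y_n = f + g ∘ Q_{m_n} + r_n`, where `g ∈ JT*` has the limits `θ(Λ_γ) - Λ_γ(f)` along the branches,
`Q_m` is the projection on the levels `> m`, and `∑ |r_n(x)|² ≤ C ‖x‖²`. Hence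
`∑ |(y_{p_j} - y_{q_j})(x)|² ≤ C ‖x‖²` for disjoint intervals `[p_j, q_j)`, that is,
`x ↦ ((y_i - y_{i + 1})(x))_i` is bounded from `JT` to `J`. Its adjoint, restricted to a copy of
`J*` in the closed span of the coordinate functionals of `J`, is an isomorphism into `Y`; it is
bounded below because of the unit vectors of the nodes of `γ₀` at suitable levels.
-/

set_option autoImplicit false

namespace Pool.Agent.Results.MP_245e03_an.NonreflexiveSubspaces

open Pool.Agent.Q199.JT

/-- Every closed nonreflexive subspace `Y` of the dual of the James tree space contains a closed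
subspace isomorphic to the dual of the James quasi-reflexive space. -/
theorem result (Y : Submodule ℝ (Ds treeSys)) (hcl : IsClosed (Y : Set (Ds treeSys)))
    (hY : ¬ IsRefl Y) : Contains Y (Ds natSys) :=
  main Y hcl fun h => hY ((isRefl_iff Y).2 h)

end Pool.Agent.Results.MP_245e03_an.NonreflexiveSubspaces
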